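import Pool.Agent.Lib.helper30.Eter

set_option autoImplicit false

namespace Pool.Agent.Results.MP_18a4fa_co.LongGame

/-- One response of the defender: every guard stays or crosses one edge, and no two guards end
on the same vertex. -/
def Move {V : Type} (G : SimpleGraph V) (C D : Set V) : Prop :=
  ∃ f : V → V, Set.InjOn f C ∧ (∀ v ∈ C, f v = v ∨ G.Adj v (f v)) ∧ D = f '' C

/-- From `C` the defender survives the first `t` attacks against every attacking strategy. -/
def Survives {V : Type} (G : SimpleGraph V) : ℕ → Set V → Prop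
  | 0, _ => True
  | t + 1, C => ∀ a : V, ∃ D : Set V, Move G C D ∧ a ∈ D ∧ Survives G t D

/-- `C` is an m-eternal dominating set: the defender can respond forever. -/
def Eternal {V : Type} (G : SimpleGraph V) (C : Set V) : Prop :=
  ∃ F : Set (Set V), C ∈ F ∧ ∀ D ∈ F, ∀ a : V, ∃ E ∈ F, Move G D E ∧ a ∈ E

/-- The m-eternal domination number. -/
noncomputable def gammaM {V : Type} (G : SimpleGraph V) : ℕ :=
  sInf {k : ℕ | ∃ C : Set V, C.ncard = k ∧ Eternal G C}

open Pool.Agent.Lib.Helper30.Eter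

theorem surv (t : ℕ) : ∀ u v w : Fin 16, t ≤ rk u.val v.val w.val → Survives G t {u, v, w} := by
  induction t with
  | zero => intro u v w _; trivial
  | succ t ih =>
    intro u v w h a
    obtain ⟨n1, n2, n3, H⟩ := low u v w (by omega)
    obtain ⟨x, y, z, hx, hy, hz, ha, m1, m2, m3, hr⟩ := H a
    let f : Fin 16 → Fin 16 := fun s => if s = u then x else if s = v then y else z
    have fu : f u = x := by simp [f]
    have fv : f v = y := by simp [f, n1.symm]
    have fw : f w = z := by simp [f, n2.symm, n3.symm]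
    refine ⟨{x, y, z}, ⟨f, ?_, ?_, ?_⟩, ha, ih x y z (by omega)⟩
    · rintro p (rfl | rfl | rfl) q (rfl | rfl | rfl) h <;>
        simp only [fu, fv, fw] at h <;>
        first | rfl | exact absurd h m1 | exact absurd h m2 | exact absurd h m3 |
          exact absurd h.symm m1 | exact absurd h.symm m2 | exact absurd h.symm m3
    · rintro p (rfl | rfl | rfl)
      · rw [fu]; exact hx
      · rw [fv]; exact hy
      · rw [fw]; exact hz
    · rw [Set.image_insert_eq, Set.image_insert_eq, Set.image_singleton, fu, fv, fw]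

theorem notin (F : Set (Set (Fin 16))) (hF : ∀ D ∈ F, ∀ a, ∃ E ∈ F, Move G D E ∧ a ∈ E) (r : ℕ) :
    ∀ u v w : Fin 16, rk u.val v.val w.val < r → ({u, v, w} : Set (Fin 16)) ∉ F := by
  induction r with
  | zero => intro u v w h; omega
  | succ r ih =>
    intro u v w h hm
    obtain ⟨a, ha⟩ := up u v w
    obtain ⟨E, hE, ⟨f, _, h2, rfl⟩, h3⟩ := hF _ hm a
    rw [Set.image_insert_eq, Set.image_insert_eq, Set.image_singleton] at hE h3
    have := ha (f u) (f v) (f w) (h2 u (by simp)) (h2 v (by simp)) (h2 w (by simp)) h3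
    exact ih _ _ _ (by omega) hE

theorem four_le (C : Set (Fin 16)) (hC : Eternal G C) : 4 ≤ C.ncard := by
  obtain ⟨F, h1, h2⟩ := hC
  by_contra hn
  have : C.ncard = 0 ∨ C.ncard = 1 ∨ C.ncard = 2 ∨ C.ncard = 3 := by omega
  rcases this with h | h | h | h
  · rw [Set.ncard_eq_zero] at h
    subst h
    obtain ⟨E, _, ⟨f, _, _, rfl⟩, h3⟩ := h2 _ h1 0
    simp at h3
  · obtain ⟨u, rfl⟩ := Set.ncard_eq_one.mp h
    exact notin F h2 _ u u u (Nat.lt_succ_self _) (by simpa using h1)
  · obtain ⟨u, v, _, rfl⟩ := Set.ncard_eq_two.mp h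
    exact notin F h2 _ u v v (Nat.lt_succ_self _) (by simpa using h1)
  · obtain ⟨u, v, w, _, _, _, rfl⟩ := Set.ncard_eq_three.mp h
    exact notin F h2 _ u v w (Nat.lt_succ_self _) h1

/-- A graph on 16 vertices and a configuration of at most `γ_m^∞ - 1` guards from which the
defender survives the first 17 attacks (so in particular the first 16). -/
theorem result :
    ∃ (H : SimpleGraph (Fin 16)) (C : Set (Fin 16)),
      C.ncard + 1 ≤ gammaM H ∧ Survives H 16 C ∧ Survives H 17 C := by
  refine ⟨G, {0, 4, 5}, ?_, surv 16 0 4 5 (by change 16 ≤ rk 0 4 5; rw [rk0]; norm_num),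
    surv 17 0 4 5 (by change 17 ≤ rk 0 4 5; rw [rk0])⟩
  have h3 : ({0, 4, 5} : Set (Fin 16)).ncard = 3 :=
    Set.ncard_eq_three.mpr ⟨0, 4, 5, by decide, by decide, by decide, rfl⟩
  rw [h3]
  have ne : {k : ℕ | ∃ C : Set (Fin 16), C.ncard = k ∧ Eternal G C}.Nonempty := by
    refine ⟨_, Set.univ, rfl, {Set.univ}, rfl, ?_⟩
    rintro D rfl a
    exact ⟨Set.univ, rfl, ⟨id, Set.injOn_id _, fun v _ => Or.inl rfl, by simp⟩, trivial⟩
  obtain ⟨C, hC, hE⟩ := Nat.sInf_mem ne
  unfold gammaM
  rw [← hC]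
  exact four_le C hE

end Pool.Agent.Results.MP_18a4fa_co.LongGame
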